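import Pool.Agent.L0h62.MT.J

/-! The family of a well spaced set of pairs `(χ, t)`, and the final statement. -/

set_option autoImplicit false

namespace Pool.Agent.L0h62.MT

open Finset MeasureTheory Filter Complex

/-- the family of the members of `S` -/
theorem fam_disc (P : ℕ) [NeZero P] (T : ℝ) (hT : 0 ≤ T) (Q : ℕ) (S : Finset (DirichletCharacter ℂ P × ℝ))
    (hS : ∀ w ∈ S, w.2 ∈ Set.Icc 0 T) (hsp : ∀ w ∈ S, ∀ w' ∈ S, w.1 = w'.1 → w ≠ w' → 1 ≤ |w.2 - w'.2|) :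
    @Fam S ⊤ (@Measure.count _ ⊤) (fun n w => hy n w.1) Q
      ((P * (T + 1) + 4 * Q * (1 + Real.log Q)) * (3 + 2 * Real.log Q)) := by
  let _ : MeasurableSpace S := ⊤
  have : MeasurableSingletonClass S := ⟨fun _ => trivial⟩
  refine ⟨fun w => by unfold hy; simp, fun m n w => hy_mul m n w.1, fun n => measurable_from_top,
    fun n w => hy_norm n w.1, fun M hM b => ?_⟩
  rw [integral_count]
  have h0 : ∑ w : S, ‖∑ m ∈ Icc 1 M, b m * hy m w.1‖ ^ 2 = ∑ w ∈ S, ‖∑ m ∈ Icc 1 M, b m * hy m w‖ ^ 2 :=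
    Finset.sum_coe_sort S (fun w => ‖∑ m ∈ Icc 1 M, b m * hy m w‖ ^ 2)
  rw [h0]
  refine (mv_disc P M T hT S hS hsp b).trans ?_
  have h7 : 0 ≤ ∑ m ∈ Icc 1 M, ‖b m‖ ^ 2 := sum_nonneg fun _ _ => by positivity
  refine mul_le_mul_of_nonneg_right ?_ h7
  have h2 : (M : ℝ) ≤ Q := by exact_mod_cast hM
  have h6 : 0 ≤ Real.log (M : ℝ) := Real.log_natCast_nonneg M
  have h5 : Real.log M ≤ Real.log Q := by
    rcases Nat.eq_zero_or_pos M with h | h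
    · rw [h]
      simpa using Real.log_natCast_nonneg Q
    · exact Real.log_le_log (by exact_mod_cast h) h2
  gcongr

/-- well spaced sets of pairs -/
theorem fin_disc (ε : ℝ) (hε : 0 < ε) (P k Q : ℕ) [NeZero P] (T : ℝ) (hT : 0 ≤ T) (B c : ℝ) (hB : 0 < B) (hk : 1 ≤ k)
    (hmain : ∀ (Ω : Type) [MeasurableSpace Ω] (μ : Measure Ω) [IsFiniteMeasure μ]
      (φ : ℕ → Ω → ℂ) (K : ℝ), 0 ≤ K → Fam μ φ Q K → ∀ f : ℕ → ℂ, (∀ n, ‖f n‖ ≤ 1) →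
      ∃ E : Set Ω, MeasurableSet E ∧ μ.real E ≤ K * (Q : ℝ) ^ (-c) ∧
        ∀ ω, ω ∉ E → ∀ N : ℕ, (Q : ℝ) ^ (1 / (2 * B)) ≤ N → N ^ k ≤ Q → ∀ y z q a : ℕ, y ≤ z → z ≤ N → 1 ≤ q →
          ‖SS f φ y z q a ω‖ ≤ (N : ℝ) ^ (ε / 2) * √(((z : ℝ) - y) / q + 1))
    (R : ℝ) (hR : 1 ≤ R) (hQR : (Q : ℝ) ≤ R) (hR2 : √R ≤ Q)
    (h2 : 2 ≤ R ^ (1 / (2 * B))) (h3 : 2 ≤ R ^ (1 / B * (ε / 2)))
    (f : ℕ → ℂ) (hf : ∀ n, ‖f n‖ ≤ 1) (S : Finset (DirichletCharacter ℂ P × ℝ))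
    (hS : ∀ w ∈ S, w.2 ∈ Set.Icc 0 T) (hsp : ∀ w ∈ S, ∀ w' ∈ S, w.1 = w'.1 → w ≠ w' → 1 ≤ |w.2 - w'.2|)
    (p : DirichletCharacter ℂ P × ℝ → Prop)
    (hp : ∀ w ∈ S, p w → ∃ x : ℝ, R ^ (1 / B) ≤ x ∧ x ≤ R ^ (1 / (2 * (k : ℝ))) ∧
      ¬ ((∀ q a : ℕ, 1 ≤ q → (q : ℝ) ≤ √x →
        ‖SS f (hy (P := P)) 0 ⌊x⌋₊ q a w‖ ≤ x ^ ((1 : ℝ) / 2 + ε) / √q) ∧
      ∀ y z q a : ℕ, y ≤ z → (z : ℝ) ≤ x → 1 ≤ q →
        ‖SS f (hy (P := P)) y z q a w‖ ≤ x ^ ε * √(1 + ((z : ℝ) - y) / q))) [DecidablePred p] :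
    ((S.filter p).card : ℝ) ≤
      ((P * (T + 1) + 4 * Q * (1 + Real.log Q)) * (3 + 2 * Real.log Q)) * (Q : ℝ) ^ (-c) := by
  classical
  let _ : MeasurableSpace S := ⊤
  have : MeasurableSingletonClass S := ⟨fun _ => trivial⟩
  have hlog : 0 ≤ Real.log (Q : ℝ) := Real.log_natCast_nonneg Q
  obtain ⟨E, -, hE, hE2⟩ := hmain S Measure.count (fun n w => hy n w.1)
    ((P * (T + 1) + 4 * Q * (1 + Real.log Q)) * (3 + 2 * Real.log Q)) (by positivity) (fam_disc P T hT Q S hS hsp) f hf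
  refine le_trans ?_ hE
  have h1 : Measure.count.real E = (E.toFinset.card : ℝ) := by
    rw [measureReal_def]
    conv_lhs => rw [← Set.coe_toFinset E]
    rw [Measure.count_apply_finset]
    simp
  rw [h1]
  have hsub : S.filter p ⊆ E.toFinset.image Subtype.val := by
    intro w hw
    obtain ⟨hwS, hwp⟩ := mem_filter.1 hw
    refine mem_image.2 ⟨⟨w, hwS⟩, ?_, rfl⟩
    rw [Set.mem_toFinset]
    by_contra hcon
    obtain ⟨x, hx1, hx2, hx3⟩ := hp w hwS hwp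
    exact hx3 (conv ε B R k Q hε hB hk hR hQR hR2 h2 h3 (fun y z q a => SS f (hy (P := P)) y z q a w)
      (fun N a1 a2 y z q a a3 a4 a5 => hE2 ⟨w, hwS⟩ hcon N a1 a2 y z q a a3 a4 a5) x hx1 hx2)
  have h4 : (S.filter p).card ≤ E.toFinset.card := (card_le_card hsub).trans card_image_le
  exact_mod_cast h4

end Pool.Agent.L0h62.MT
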